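import Mathlib
import Pool.Agent.H15.MS6

set_option autoImplicit false

open Polynomial

namespace Pool.Agent.Results.MP_3f3e0f_an.Power

/-- All complex zeros are real; the zero polynomial counts as real-rooted. -/
def RealRooted (p : ℝ[X]) : Prop := p = 0 ∨ ∀ z : ℂ, aeval z p = 0 → z.im = 0

/-- `F` preserves real-rootedness on polynomials with strictly positive coefficients. -/
def Preserves (F : ℝ → ℝ) : Prop :=
  ∀ p : ℝ[X], RealRooted p → (∀ k ≤ p.natDegree, 0 < p.coeff k) →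
    RealRooted (∑ k ∈ Finset.range (p.natDegree + 1), monomial k (F (p.coeff k)))

open Pool.Agent.H15.MS in
theorem result (F : ℝ → ℝ) (h0 : F 0 = 0) (hF : ∀ x, 0 ≤ x → 0 ≤ F x) (h : Preserves F) :
    ∃ c α : ℝ, 0 ≤ c ∧ 1 ≤ α ∧ ∀ x, 0 ≤ x → F x = c * x ^ α := by
  obtain ⟨c, α, hc, hα, he⟩ := power (F := F) (fun d p hp hd hpos => by
    subst hd
    exact (splits_iff _).2 (h p ((splits_iff p).1 hp) hpos)) fun x hx => hF x hx.le
  refine ⟨c, α, hc, hα, fun x hx => ?_⟩
  rcases hx.eq_or_lt with rfl | hx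
  · rw [h0, Real.zero_rpow (by linarith), mul_zero]
  · exact he x hx

end Pool.Agent.Results.MP_3f3e0f_an.Power
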